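import Pool.Agent.Helper18.RD.Stmts

/-! # Row AR of project RD: the arithmetic data exist on at least half of the points -/

set_option autoImplicit false

namespace Pool.Agent.Helper58.RD

open Pool.Agent.Helper18.RD Finset

theorem kap_cases (q : ℕ) : ((kap q : ℕ) : ℤ) = 1 ∨ ((kap q : ℕ) : ℤ) = 2 := by
  unfold kap
  split_ifs <;> simp

theorem sg_cases (q a b n l : ℕ) : sg q a b n l = 1 ∨ sg q a b n l = -1 := by
  unfold sg
  split_ifs <;> simp

theorem wi_nonneg (N q a : ℕ) (hN : 1 ≤ N) : 0 ≤ wi N q a := by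
  unfold wi
  have h1 : (1 : ℝ) ≤ N := by exact_mod_cast hN
  have h2 : (0 : ℝ) ≤ (a : ℝ) / q := by positivity
  have h3 : (1 : ℝ) ≤ 8 * ((a : ℝ) / q + N) := by linarith
  have h4 : (1 : ℝ) ≤ (EE q : ℝ) := by
    have : 1 ≤ EE q := Nat.one_le_two_pow
    exact_mod_cast this
  exact add_nonneg (Real.log_nonneg h3) (Real.log_nonneg h4)

theorem st_AR (hHALF : ST_HALF) (hUV : ST_UV) (hGR : ST_GR) (hCHI : ST_CHI) : ST_AR := by
  intro N q a hN hq hc
  obtain ⟨S, hS, hcard, hE⟩ := hHALF N q a hq hc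
  rcases S.eq_empty_or_nonempty with hemp | ⟨b, hb⟩
  · subst hemp
    refine ⟨∅, fun n l => sg q a 0 n l, fun _ _ => 1, fun _ _ => 1, 1, 0, hS, hcard, ?_⟩
    exact
      { sub := by simp
        kap := Or.inl rfl
        sgn := fun n l => sg_cases q a 0 n l
        cd := by simp
        w0 := le_refl _
        gram := by simp
        chi := fun p _ => ⟨fun _ => 1, fun _ => 1, fun _ => 1, fun _ => Or.inl rfl,
          fun _ => Or.inl rfl, fun _ => Or.inl rfl, by simp⟩ }
  · have hsq : ∀ n ∈ S, IsSquare (q * n + a) := fun n hn => (mem_filter.mp (hS hn)).2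
    have hlt : ∀ n ∈ S, n < N := fun n hn => mem_range.mp (mem_filter.mp (hS hn)).1
    have hhyp : ∀ n ∈ S, ∀ n' ∈ S, n ≠ n' → Hyp q a b n n' := fun n hn n' hn' hne =>
      { q1 := hq
        cop := hc
        hb := hsq b hb
        hn := hsq n hn
        hn' := hsq n' hn'
        ne := hne
        hE := hE n hn n' hn' }
    refine ⟨S, fun n l => sg q a b n l, cc q a b, dd q a b, (kap q : ℤ), wi N q a, hS, hcard, ?_⟩
    exact
      { sub := fun n hn => mem_range.mpr (hlt n hn)
        kap := kap_cases q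
        sgn := fun n l => sg_cases q a b n l
        cd := fun n hn n' hn' hne => (hUV q a b n n' (hhyp n hn n' hn' hne)).2.2.2.1
        w0 := wi_nonneg N q a hN
        gram := fun n hn n' hn' hne =>
          hGR N q a b n n' (hhyp n hn n' hn' hne) (hlt n hn) (hlt n' hn')
        chi := fun p hp => by
          obtain ⟨f, lam, mu, h1, h2, h3, h4⟩ := hCHI q a b p hq hc (hsq b hb) hp
          exact ⟨f, lam, mu, h1, h2, h3, fun n hn n' hn' hne =>
            h4 n n' (hhyp n hn n' hn' hne)⟩ }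

end Pool.Agent.Helper58.RD
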