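import Pool.Agent.Helper18.RD.Stmts

/-! # Row BL of project RD: few primes are unbalanced on a large set -/

set_option autoImplicit false

namespace Pool.Agent.Helper58.RD

open Pool.Agent.Helper18.RD Finset

theorem hh_nonneg (N : ℕ) (hN : 1 ≤ N) : 0 ≤ HH N := by
  unfold HH
  have h1 : (1 : ℝ) ≤ N := by exact_mod_cast hN
  have h2 := Real.log_nonneg h1
  have h3 : 0 ≤ Real.log 16 := Real.log_nonneg (by norm_num)
  linarith

theorem wt_ge_one (q p : ℕ) (hp : p ∈ OP q) : 1 ≤ wt q p := by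
  unfold OP at hp
  obtain ⟨hp2, hpq⟩ := mem_erase.mp hp
  have hpp : p.Prime := Nat.prime_of_mem_primeFactors hpq
  have h3 : 3 ≤ p := by
    have := hpp.two_le
    omega
  have hv : 1 ≤ q.factorization p := by
    have h1 : p ∣ q := Nat.dvd_of_mem_primeFactors hpq
    have h2 : q ≠ 0 := (Nat.mem_primeFactors.mp hpq).2.2
    exact (hpp.dvd_iff_one_le_factorization h2).mp h1
  have h4 : 3 ≤ pw q p := by
    unfold pw
    calc 3 ≤ p := h3
      _ = p ^ 1 := (pow_one p).symm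
      _ ≤ p ^ q.factorization p := Nat.pow_le_pow_right (by omega) hv
  unfold wt
  have h5 : (3 : ℝ) ≤ (pw q p : ℝ) := by exact_mod_cast h4
  rw [Real.le_log_iff_exp_le (by linarith)]
  have := Real.exp_one_lt_d9
  linarith

theorem wt_nonneg (q l : ℕ) : 0 ≤ wt q l := by
  unfold wt
  exact Real.log_natCast_nonneg _

open Classical in
theorem unbal_sq (e : ℕ → ℕ → ℤ) (S' : Finset ℕ) (p : ℕ) (he : ∀ n l, e n l = 1 ∨ e n l = -1)
    (h : ¬ Bal e S' p) : (S'.card : ℝ) ^ 2 ≤ 4 * (∑ n ∈ S', (e n p : ℝ)) ^ 2 := by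
  have hsum : (∑ n ∈ S', (e n p : ℝ)) = ((S'.filter (fun n => e n p = 1)).card : ℝ) -
      ((S'.filter (fun n => e n p = -1)).card : ℝ) := by
    rw [card_filter, card_filter]
    push_cast
    rw [← sum_sub_distrib]
    apply sum_congr rfl
    intro n _
    rcases he n p with h1 | h1 <;> rw [h1] <;> norm_num
  have hcard : (S'.filter (fun n => e n p = 1)).card + (S'.filter (fun n => e n p = -1)).card =
      S'.card := by
    rw [card_filter, card_filter, ← sum_add_distrib, card_eq_sum_ones]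
    apply sum_congr rfl
    intro n _
    rcases he n p with h1 | h1 <;> rw [h1] <;> norm_num
  have hc : ((S'.filter (fun n => e n p = 1)).card : ℝ) +
      ((S'.filter (fun n => e n p = -1)).card : ℝ) = (S'.card : ℝ) := by
    exact_mod_cast hcard
  rw [hsum]
  unfold Bal at h
  rw [not_and_or, not_le, not_le] at h
  have hA : (0 : ℝ) ≤ ((S'.filter (fun n => e n p = 1)).card : ℝ) := by positivity
  have hB : (0 : ℝ) ≤ ((S'.filter (fun n => e n p = -1)).card : ℝ) := by positivity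
  rcases h with h | h
  · have h' : 4 * ((S'.filter (fun n => e n p = 1)).card : ℝ) < (S'.card : ℝ) := by
      exact_mod_cast h
    have h1 : (S'.card : ℝ) ≤ 2 * (((S'.filter (fun n => e n p = -1)).card : ℝ) -
        ((S'.filter (fun n => e n p = 1)).card : ℝ)) := by linarith
    have h2 : (S'.card : ℝ) ^ 2 ≤ (2 * (((S'.filter (fun n => e n p = -1)).card : ℝ) -
        ((S'.filter (fun n => e n p = 1)).card : ℝ))) ^ 2 :=
      pow_le_pow_left₀ (by positivity) h1 2
    nlinarith [h2]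
  · have h' : 4 * ((S'.filter (fun n => e n p = -1)).card : ℝ) < (S'.card : ℝ) := by
      exact_mod_cast h
    have h1 : (S'.card : ℝ) ≤ 2 * (((S'.filter (fun n => e n p = 1)).card : ℝ) -
        ((S'.filter (fun n => e n p = -1)).card : ℝ)) := by linarith
    have h2 : (S'.card : ℝ) ^ 2 ≤ (2 * (((S'.filter (fun n => e n p = 1)).card : ℝ) -
        ((S'.filter (fun n => e n p = -1)).card : ℝ))) ^ 2 :=
      pow_le_pow_left₀ (by positivity) h1 2
    nlinarith [h2]

theorem st_BL : ST_BL := by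
  classical
  intro N q S e c d k w hN hD S' hS' hne
  have hs : (0 : ℝ) < (S'.card : ℝ) := by exact_mod_cast hne.card_pos
  have hHH := hh_nonneg N hN
  have hW0 : 0 ≤ w + ∑ l ∈ OP q, wt q l :=
    add_nonneg hD.w0 (sum_nonneg fun l _ => wt_nonneg q l)
  -- the double sum
  have hdouble : ∑ n ∈ S', ∑ n' ∈ S',
      (w + ∑ l ∈ OP q, wt q l * ((e n l * e n' l : ℤ) : ℝ)) =
      w * (S'.card : ℝ) ^ 2 + ∑ l ∈ OP q, wt q l * (∑ n ∈ S', (e n l : ℝ)) ^ 2 := by
    have h1 : ∀ n ∈ S', ∑ n' ∈ S', (w + ∑ l ∈ OP q, wt q l * ((e n l * e n' l : ℤ) : ℝ)) =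
        w * (S'.card : ℝ) + ∑ l ∈ OP q, wt q l * ((e n l : ℝ) * ∑ n' ∈ S', (e n' l : ℝ)) := by
      intro n _
      rw [sum_add_distrib, sum_const, nsmul_eq_mul, sum_comm, mul_comm]
      congr 1
      apply sum_congr rfl
      intro l _
      rw [mul_sum, mul_sum]
      apply sum_congr rfl
      intro n' _
      push_cast
      ring
    rw [sum_congr rfl h1, sum_add_distrib, sum_const, nsmul_eq_mul, sum_comm]
    congr 1
    · ring
    · apply sum_congr rfl
      intro l _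
      rw [← mul_sum, ← sum_mul, sq]
  have hupper : ∑ n ∈ S', ∑ n' ∈ S',
      (w + ∑ l ∈ OP q, wt q l * ((e n l * e n' l : ℤ) : ℝ)) ≤
      (S'.card : ℝ) * (w + ∑ l ∈ OP q, wt q l) + (S'.card : ℝ) ^ 2 * HH N := by
    have h1 : ∀ n ∈ S', ∀ n' ∈ S', (w + ∑ l ∈ OP q, wt q l * ((e n l * e n' l : ℤ) : ℝ)) ≤
        (if n = n' then (w + ∑ l ∈ OP q, wt q l) else 0) + HH N := by
      intro n hn n' hn'
      by_cases hnn : n = n'
      · subst hnn
        rw [if_pos rfl]
        have h2 : ∑ l ∈ OP q, wt q l * ((e n l * e n l : ℤ) : ℝ) = ∑ l ∈ OP q, wt q l := by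
          apply sum_congr rfl
          intro l _
          rcases hD.sgn n l with h3 | h3 <;> rw [h3] <;> norm_num
        rw [h2]
        linarith
      · rw [if_neg hnn, zero_add]
        exact (hD.gram n (hS' hn) n' (hS' hn') hnn).2
    calc ∑ n ∈ S', ∑ n' ∈ S', (w + ∑ l ∈ OP q, wt q l * ((e n l * e n' l : ℤ) : ℝ))
        ≤ ∑ n ∈ S', ∑ n' ∈ S', ((if n = n' then (w + ∑ l ∈ OP q, wt q l) else 0) + HH N) :=
          sum_le_sum fun n hn => sum_le_sum fun n' hn' => h1 n hn n' hn'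
      _ = ∑ n ∈ S', ((w + ∑ l ∈ OP q, wt q l) + (S'.card : ℝ) * HH N) := by
          apply sum_congr rfl
          intro n hn
          rw [sum_add_distrib, sum_const, nsmul_eq_mul, sum_ite_eq, if_pos hn]
      _ = _ := by
          rw [sum_const, nsmul_eq_mul]
          ring
  -- the unbalanced primes
  have hlower : (((OP q).filter (fun p => ¬ Bal e S' p)).card : ℝ) * (S'.card : ℝ) ^ 2 ≤
      4 * ∑ l ∈ OP q, wt q l * (∑ n ∈ S', (e n l : ℝ)) ^ 2 := by
    have h1 : ∑ l ∈ (OP q).filter (fun p => ¬ Bal e S' p), (S'.card : ℝ) ^ 2 ≤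
        ∑ l ∈ (OP q).filter (fun p => ¬ Bal e S' p),
          4 * (wt q l * (∑ n ∈ S', (e n l : ℝ)) ^ 2) := by
      apply sum_le_sum
      intro l hl
      obtain ⟨hl1, hl2⟩ := mem_filter.mp hl
      have h2 := unbal_sq e S' l hD.sgn hl2
      have h3 := wt_ge_one q l hl1
      have h4 : (∑ n ∈ S', (e n l : ℝ)) ^ 2 ≤ wt q l * (∑ n ∈ S', (e n l : ℝ)) ^ 2 :=
        le_mul_of_one_le_left (by positivity) h3
      linarith
    rw [sum_const, nsmul_eq_mul, ← mul_sum] at h1
    have h5 : ∑ l ∈ (OP q).filter (fun p => ¬ Bal e S' p),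
        wt q l * (∑ n ∈ S', (e n l : ℝ)) ^ 2 ≤
        ∑ l ∈ OP q, wt q l * (∑ n ∈ S', (e n l : ℝ)) ^ 2 :=
      sum_le_sum_of_subset_of_nonneg (filter_subset _ _) fun l _ _ =>
        mul_nonneg (wt_nonneg q l) (by positivity)
    linarith
  have hw : 0 ≤ w * (S'.card : ℝ) ^ 2 := mul_nonneg hD.w0 (by positivity)
  have hmain : (((OP q).filter (fun p => ¬ Bal e S' p)).card : ℝ) * (S'.card : ℝ) ^ 2 ≤
      (4 * ((w + ∑ l ∈ OP q, wt q l) / S'.card + HH N)) * (S'.card : ℝ) ^ 2 := by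
    have h1 : (4 * ((w + ∑ l ∈ OP q, wt q l) / S'.card + HH N)) * (S'.card : ℝ) ^ 2 =
        4 * ((S'.card : ℝ) * (w + ∑ l ∈ OP q, wt q l) + (S'.card : ℝ) ^ 2 * HH N) := by
      field_simp
    rw [h1]
    linarith
  exact le_of_mul_le_mul_right hmain (by positivity)

end Pool.Agent.Helper58.RD
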