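import Pool.Agent.Helper18.RD.Stmts

/-! # Row HALF of project RD: half of the points have roots congruent modulo `EE q` -/

set_option autoImplicit false

namespace Pool.Agent.Helper58.RD

open Pool.Agent.Helper18.RD Finset

theorem sq_mm {q a n : ℕ} (h : IsSquare (q * n + a)) :
    (mm q a n : ℤ) ^ 2 = (q : ℤ) * n + a := by
  obtain ⟨r, hr⟩ := h
  have h1 : mm q a n = r := by
    unfold mm
    rw [hr, Nat.sqrt_eq]
  have h2 : ((q * n + a : ℕ) : ℤ) = ((r * r : ℕ) : ℤ) := by rw [hr]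
  push_cast at h2
  rw [h1, h2]
  ring

theorem two_pow_split (e : ℕ) (he : 2 ≤ e) (x y : ℤ) (hx : Odd x) (hy : Odd y)
    (h : (2 : ℤ) ^ e ∣ (x - y) * (x + y)) :
    (2 : ℤ) ^ (e - 1) ∣ x - y ∨ (2 : ℤ) ^ (e - 1) ∣ x + y := by
  obtain ⟨k, rfl⟩ := Nat.exists_eq_add_of_le he
  obtain ⟨s, hs⟩ := hx
  obtain ⟨t, ht⟩ := hy
  have e1 : x - y = 2 * (s - t) := by rw [hs, ht]; ring
  have e2 : x + y = 2 * (s + t + 1) := by rw [hs, ht]; ring
  have h4 : (2 : ℤ) ^ k ∣ (s - t) * (s + t + 1) := by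
    have h5 : (2 : ℤ) ^ (2 + k) = 4 * 2 ^ k := by rw [pow_add]; norm_num
    rw [e1, e2, h5] at h
    have h6 : 2 * (s - t) * (2 * (s + t + 1)) = 4 * ((s - t) * (s + t + 1)) := by ring
    rw [h6] at h
    exact (mul_dvd_mul_iff_left (by norm_num)).mp h
  have hk : 2 + k - 1 = k + 1 := by omega
  rw [hk, e1, e2, pow_succ]
  rcases Int.even_or_odd (s - t) with hev | hod
  · left
    have hodd : Odd (s + t + 1) := by
      obtain ⟨r, hr⟩ := hev
      exact ⟨t + r, by linarith⟩
    have hc : IsCoprime ((2 : ℤ) ^ k) (s + t + 1) := by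
      apply IsCoprime.pow_left
      rw [Int.isCoprime_iff_gcd_eq_one, Int.gcd_comm]
      exact Int.isCoprime_iff_gcd_eq_one.mp (Int.isCoprime_two_right.mpr hodd)
    have h7 : (2 : ℤ) ^ k ∣ s - t := hc.dvd_of_dvd_mul_right h4
    rw [mul_comm (2 : ℤ) (s - t)]
    exact mul_dvd_mul_right h7 2
  · right
    have hc : IsCoprime ((2 : ℤ) ^ k) (s - t) := by
      apply IsCoprime.pow_left
      rw [Int.isCoprime_iff_gcd_eq_one, Int.gcd_comm]
      exact Int.isCoprime_iff_gcd_eq_one.mp (Int.isCoprime_two_right.mpr hod)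
    have h7 : (2 : ℤ) ^ k ∣ s + t + 1 := hc.dvd_of_dvd_mul_left h4
    rw [mul_comm (2 : ℤ) (s + t + 1)]
    exact mul_dvd_mul_right h7 2

theorem st_HALF : ST_HALF := by
  intro N q a hq hc
  rcases (SS N q a).eq_empty_or_nonempty with hemp | ⟨b, hb⟩
  · exact ⟨∅, by simp, by simp [hemp], by simp⟩
  have hsq : ∀ n ∈ SS N q a, IsSquare (q * n + a) := fun n hn => (mem_filter.mp hn).2
  by_cases he : q.factorization 2 ≤ 1
  · refine ⟨SS N q a, Subset.rfl, by omega, fun n _ n' _ => ?_⟩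
    have h0 : q.factorization 2 - 1 = 0 := by omega
    unfold EE
    rw [h0]
    simp
  · have he2 : 2 ≤ q.factorization 2 := by omega
    have h2q : (2 : ℕ) ^ q.factorization 2 ∣ q := Nat.ordProj_dvd q 2
    have heven : 2 ∣ q := (dvd_pow_self 2 (by omega)).trans h2q
    have haodd : ¬ 2 ∣ a := by
      intro h
      have := Nat.dvd_gcd heven h
      rw [hc] at this
      omega
    have hodd : ∀ n ∈ SS N q a, Odd (mm q a n : ℤ) := by
      intro n hn
      have h1 := sq_mm (hsq n hn)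
      by_contra hcon
      rw [Int.not_odd_iff_even] at hcon
      have h2 : (2 : ℤ) ∣ (mm q a n : ℤ) ^ 2 := (dvd_pow hcon.two_dvd (by norm_num))
      rw [h1] at h2
      have h3 : (2 : ℤ) ∣ (q : ℤ) * n := (Int.natCast_dvd_natCast.mpr heven).mul_right _
      have h4 : (2 : ℤ) ∣ (a : ℤ) := (dvd_add_right h3).mp h2
      exact haodd (by exact_mod_cast h4)
    have hkey : ∀ n ∈ SS N q a, (EE q : ℤ) ∣ (mm q a n : ℤ) - mm q a b ∨
        (EE q : ℤ) ∣ (mm q a n : ℤ) + mm q a b := by
      intro n hn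
      have h1 := sq_mm (hsq n hn)
      have h2 := sq_mm (hsq b hb)
      have h3 : (2 : ℤ) ^ q.factorization 2 ∣
          ((mm q a n : ℤ) - mm q a b) * ((mm q a n : ℤ) + mm q a b) := by
        have e1 : ((mm q a n : ℤ) - mm q a b) * ((mm q a n : ℤ) + mm q a b) =
            (q : ℤ) * ((n : ℤ) - b) := by
          have : ((mm q a n : ℤ) - mm q a b) * ((mm q a n : ℤ) + mm q a b) =
            (mm q a n : ℤ) ^ 2 - (mm q a b : ℤ) ^ 2 := by ring
          rw [this, h1, h2]
          ring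
        rw [e1]
        apply Dvd.dvd.mul_right
        exact_mod_cast h2q
      have h4 := two_pow_split _ he2 _ _ (hodd n hn) (hodd b hb) h3
      unfold EE
      push_cast
      exact h4
    classical
    have hcard : ((SS N q a).filter (fun n => (EE q : ℤ) ∣ (mm q a n : ℤ) - mm q a b)).card +
        ((SS N q a).filter (fun n => ¬ (EE q : ℤ) ∣ (mm q a n : ℤ) - mm q a b)).card =
        (SS N q a).card := card_filter_add_card_filter_not _
    by_cases hle : (SS N q a).card ≤ 2 *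
        ((SS N q a).filter (fun n => (EE q : ℤ) ∣ (mm q a n : ℤ) - mm q a b)).card
    · refine ⟨_, filter_subset _ _, hle, fun n hn n' hn' => ?_⟩
      have h1 := (mem_filter.mp hn).2
      have h2 := (mem_filter.mp hn').2
      have h3 := dvd_sub h1 h2
      have e1 : (mm q a n : ℤ) - mm q a b - ((mm q a n' : ℤ) - mm q a b) =
          (mm q a n : ℤ) - mm q a n' := by ring
      rwa [e1] at h3
    · refine ⟨(SS N q a).filter (fun n => ¬ (EE q : ℤ) ∣ (mm q a n : ℤ) - mm q a b),
        filter_subset _ _, by omega, fun n hn n' hn' => ?_⟩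
      have h1 := (hkey n (mem_filter.mp hn).1).resolve_left (mem_filter.mp hn).2
      have h2 := (hkey n' (mem_filter.mp hn').1).resolve_left (mem_filter.mp hn').2
      have h3 := dvd_sub h1 h2
      have e1 : (mm q a n : ℤ) + mm q a b - ((mm q a n' : ℤ) + mm q a b) =
          (mm q a n : ℤ) - mm q a n' := by ring
      rwa [e1] at h3

end Pool.Agent.Helper58.RD
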