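import Pool.Agent.Helper18.RD.Stmts4
set_option autoImplicit false

open Pool.Agent.Helper18.RD

namespace Pool.Agent.Helper58.RD

theorem st_PGR : ST_PGR := by
  intro d m X1 Y1 X2 Y2 hX1 hY1 hX2 hY2 hd _ hm h1 h2 hv hu hlt
  obtain ⟨v, hv⟩ := hv
  obtain ⟨u, hu⟩ := hu
  obtain ⟨r, hr⟩ : ∃ r : ℝ, r = Real.sqrt d := ⟨_, rfl⟩
  rw [← hr] at hlt ⊢
  have hrr : r * r = d := by
    rw [hr]
    exact Real.mul_self_sqrt (Nat.cast_nonneg d)
  have hr1 : 1 ≤ r := by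
    rw [hr]
    apply Real.one_le_sqrt.2
    exact_mod_cast (by omega : 1 ≤ d)
  have hmR : (m : ℝ) ≠ 0 := by exact_mod_cast hm
  have h1R : (X1 : ℝ) ^ 2 - d * (Y1 : ℝ) ^ 2 = m := by exact_mod_cast h1
  have h2R : (X2 : ℝ) ^ 2 - d * (Y2 : ℝ) ^ 2 = m := by exact_mod_cast h2
  have hvR : (X1 : ℝ) * Y2 - X2 * Y1 = m * v := by exact_mod_cast hv
  have huR : (X1 : ℝ) * X2 - d * (Y1 * Y2) = m * u := by exact_mod_cast hu
  have hX1R : (1 : ℝ) ≤ X1 := by exact_mod_cast hX1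
  have hY1R : (1 : ℝ) ≤ Y1 := by exact_mod_cast hY1
  have hpos : 0 < (X1 : ℝ) + Y1 * r := by positivity
  have hkey : (X2 : ℝ) + Y2 * r = (u + v * r) * (X1 + Y1 * r) := by
    apply mul_left_cancel₀ hmR
    have h3 : (m : ℝ) * ((u + v * r) * (X1 + Y1 * r)) = (m * u + (m * v) * r) * (X1 + Y1 * r) := by
      ring
    rw [h3, ← huR, ← hvR, ← h1R, ← hrr]
    ring
  have hnorm : ((u : ℝ) + v * r) * (u - v * r) = 1 := by
    have h4 : (m : ℝ) * m ≠ 0 := mul_ne_zero hmR hmR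
    apply mul_left_cancel₀ h4
    have h3 : (m : ℝ) * m * (((u : ℝ) + v * r) * (u - v * r))
        = (m * u) * (m * u) - (m * v) * (m * v) * (r * r) := by
      ring
    have h5 : (m : ℝ) * m * 1 = ((X1 : ℝ) ^ 2 - d * (Y1 : ℝ) ^ 2) *
        ((X2 : ℝ) ^ 2 - d * (Y2 : ℝ) ^ 2) := by
      rw [h1R, h2R, mul_one]
    rw [h3, h5, ← huR, ← hvR, hrr]
    ring
  have he1 : 1 < (u : ℝ) + v * r := by
    by_contra hcon
    push Not at hcon
    have h6 := mul_le_mul_of_nonneg_right hcon hpos.le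
    rw [one_mul, ← hkey] at h6
    linarith
  obtain ⟨e, he⟩ : ∃ e : ℝ, e = (u : ℝ) + v * r := ⟨_, rfl⟩
  obtain ⟨f, hf⟩ : ∃ f : ℝ, f = (u : ℝ) - v * r := ⟨_, rfl⟩
  rw [← he] at he1
  rw [← he, ← hf] at hnorm
  have hf0 : 0 < f := by
    by_contra hcon
    push Not at hcon
    nlinarith
  have hf1 : f < 1 := by
    by_contra hcon
    push Not at hcon
    nlinarith
  have hu0 : 0 < (u : ℝ) := by linarith
  have hv0 : 0 < (v : ℝ) := by
    by_contra hcon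
    push Not at hcon
    nlinarith
  have hu1 : (1 : ℝ) ≤ u := by
    have : 0 < u := by exact_mod_cast hu0
    exact_mod_cast (by omega : 1 ≤ u)
  have hv1 : (1 : ℝ) ≤ v := by
    have : 0 < v := by exact_mod_cast hv0
    exact_mod_cast (by omega : 1 ≤ v)
  have h2e : 2 ≤ e := by
    rw [he]
    nlinarith
  rw [hkey, ← he]
  exact mul_le_mul_of_nonneg_right h2e hpos.le

end Pool.Agent.Helper58.RD
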